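import Pool.Agent.Q202.FPP.Main

/-!
# `p-CLIQUE` is not reducible to `p-log-SAT(Γ_{1,d})` if `n ^ ε` pairs cannot be negated

`M[1]` is the closure under fpt-reductions of the problems `p-log-SAT(Γ_{1,d})`: satisfiability of
formulas of size `m` with at most `d` literals per clause, parameterized by `⌈v / log m⌉`, where `v`
is the number of variables. An fpt-reduction of `p-CLIQUE` to this problem maps a graph with `n`
vertices and a number `k` to a formula with `v ≤ g k * log m` variables, where `m ≤ f k * n ^ c`.

We consider reductions that are computed by circuits: the circuit gets the graph and computes for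
each possible clause a bit that says whether the clause belongs to the formula. The reduction may
also be a truth-table reduction: it asks `q` such questions in parallel, and it evaluates the `q`
answers by an arbitrary function. General circuits may use the bits of all pairs of vertices and
their negations, and AND and OR gates. Here some pairs are protected: `P` is an arbitrary set of
pairs of vertices, and

* the bits of the pairs in `P` may be used, but not their negations, while
* ALL Boolean functions of the bits of the other pairs may be used, free of charge.

In addition there are a few arbitrary further gates, the `i`-th of them with `w i` input wires.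

Theorem. Let `f` and `g` be functions, let `c` and `d` be numbers, let `ε > 0` and `0 ≤ γ < 1/2`.
(1) For all large `k` there is `α > 0` such that for all large `n` and all sets `P` of at least
`n ^ ε` pairs no such reductions with at most `f k * n ^ c` gates and with
`(q + 1) * ∏ (w i + 1) ≤ |P| ^ γ` are right, not even if they are randomised and may err with
probability `1 / 2 - n ^ (-α)`. There is one distribution of graphs (uniform on a finite family)
that is hard for all of them.
(2) If `P` has at most `c * log₂ n` elements, `2 ^ (|P| + 1) ≤ 2 n ^ c` AND and OR gates suffice, with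
one question about a formula without variables.

So the `n ^ ε` negated inputs which are missing, out of about `n ^ 2 / 2`, make the difference, and it
does not matter where they are missing.

The starting result `FewNegations` (all pairs are protected) is used for graphs with about
`|P| ^ (1 / 4)` vertices. Its input bits are placed at the edges of a large star or of a large
matching in `P`; the other pairs get constants, such that the cliques of the small graph with
`√(k / 2)` vertices become the cliques of the large graph with `k` vertices.
-/

set_option autoImplicit false

namespace Pool.Agent.Results.MP_ddf912_lc.FewProtectedPairs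

open Filter Finset Pool.Agent.H679R2.M1 Pool.Agent.Q202.FPP

/-- (1) For arbitrary sets `P` of at least `n ^ ε` pairs of different vertices there are no
truth-table reductions from `p-CLIQUE` to `p-log-SAT(Γ_{1,d})` which use the bits of the pairs in
`P`, all Boolean functions of the bits of the other pairs, and few further gates. (2) The number
of AND and OR gates that suffice without further gates is at most `2 ^ (|P| + 1)`. -/
theorem result :
    (∀ (f g : ℕ → ℕ) (c d : ℕ) (ε γ : ℝ), 0 < ε → 0 ≤ γ → γ < 1 / 2 →
      ∀ᶠ k : ℕ in atTop, ∃ α : ℝ, 0 < α ∧ ∀ᶠ n : ℕ in atTop, ∀ P : Finset (Sym2 (Fin n)),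
        (∀ e ∈ P, ¬ e.IsDiag) → (n : ℝ) ^ ε ≤ P.card →
        -- one distribution of graphs is hard for all reductions
        (∃ (Λ : Type) (_ : Fintype Λ) (_ : Nonempty Λ) (x : Λ → Sym2 (Fin n) → Bool),
          ∀ (v q N : ℕ) (R : FreeReduction P v d q N),
            v ≤ g k * (Nat.log 2 (f k * n ^ c) + 1) →
            (((q + 1) * (R.C.fanins.map (· + 1)).prod : ℕ) : ℝ) ≤ (P.card : ℝ) ^ γ →
            R.C.size + R.C.fanins.sum ≤ f k * n ^ c →
            (Set.ncard {l | Right k k (x l) (R.answer (x l))} : ℝ) <
              (1 / 2 + (n : ℝ) ^ (-α)) * Fintype.card Λ) ∧
        -- randomised reductions err with probability more than `1 / 2 - n ^ (-α)` on some graph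
        ∀ (Ω : Type) [Fintype Ω] (w : Ω → ℝ), (∀ r, 0 ≤ w r) → ∑ r, w r = 1 →
          ∀ (v q N : Ω → ℕ) (R : ∀ r, FreeReduction P (v r) d (q r) (N r)),
            (∀ r, v r ≤ g k * (Nat.log 2 (f k * n ^ c) + 1)) →
            (∀ r, (((q r + 1) * ((R r).C.fanins.map (· + 1)).prod : ℕ) : ℝ) ≤
              (P.card : ℝ) ^ γ) →
            (∀ r, (R r).C.size + (R r).C.fanins.sum ≤ f k * n ^ c) →
            ∃ x : Sym2 (Fin n) → Bool,
              ∀ Q : Finset Ω, (∀ r ∈ Q, Right k k x ((R r).answer x)) →
                ∑ r ∈ Q, w r < 1 / 2 + (n : ℝ) ^ (-α)) ∧
    ∀ (n k : ℕ) (P : Finset (Sym2 (Fin n))), ∃ (N : ℕ) (R : FreeReduction P 0 0 1 N),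
      R.C.fanins = [] ∧ R.C.size ≤ 2 ^ (P.card + 1) ∧ ∀ x, Right k k x (R.answer x) :=
  ⟨fun f g c d ε γ hε hγ0 hγ => main f g c d ε γ hε hγ0 hγ, fun _ k P => upper P k⟩

end Pool.Agent.Results.MP_ddf912_lc.FewProtectedPairs
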