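import Pool.Agent.Q229.MW.Final

set_option autoImplicit false

/-!
# `M[1] = W[1]` contradicts the nonuniform nondeterministic exponential time hypothesis
-/

namespace Pool.Agent.Results.MP_ddf912_lc.NondeterministicETH

open Pool.Agent.NPC Pool.Agent.Q229.MW

/-- If `W[1] ⊆ M[1]`, or if `k`-CLIQUE can be compressed to `h k * L ^ (1 - δ)` bits for some
`δ > 0`, then (1) the complement of every problem in `W[1]` is decided nondeterministically in
fpt-time with advice and (2) the nonuniform nondeterministic exponential time hypothesis fails. -/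
theorem result (h : (∀ Q : PProb, Q.PolyParam → InW1 Q → InM1 Q) ∨
      ∃ δ : ℝ, 0 < δ ∧ Compression δ) :
    (∀ Q : PProb, InW1 Q → CoNFptAdvice Q) ∧ NETHFails := by
  rcases h with h | ⟨δ, hδ, h⟩
  · exact main.2 h
  · exact main.1 δ hδ h

end Pool.Agent.Results.MP_ddf912_lc.NondeterministicETH
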