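import Mathlib
import Pool.Agent.Q250.SYM.Gap

/-!
# Symmetric reductions from clique need `n / k` variables

Graphs with `k` classes of `b` vertices and no edges inside the classes; circuits of arbitrary gates
that are symmetric under the even permutations inside the classes. No such circuit with fewer than
`b ^ c` gates, `k` larger than a constant times `c`, maps `k`-clique to any problem about
structures with fewer than `b` elements, not even with a gap (`M[1]` allows only `g(k) log n`
variables); with `k b` variables there is such a reduction with few gates.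
-/

set_option autoImplicit false

namespace Pool.Agent.Results.MP_ddf912_lc.SymmetricMaps

open Finset

/-- A circuit with `s` gates that reads a graph with vertex set `Fin k × Fin b`; the vertices
`(i, v)` form the class `i`. Its gates have values in `R`. A gate either reads an input variable
(a pair of vertices), or it has a multiset of incoming wires, each wire being a label in `ℕ`
together with its source (an earlier gate), and an arbitrary gate function `f`; its value is then
`f` of the multiset of all pairs (label of the wire, value at its source). The gate `out o` is the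
output number `o`. -/
structure Circuit (k b s : ℕ) (O R : Type) where
  gate : Fin s → Sym2 (Fin k × Fin b) ⊕ (Multiset (ℕ × Fin s) × (Multiset (ℕ × R) → R))
  acyclic : ∀ g w f, gate g = Sum.inr (w, f) → ∀ p ∈ w, p.2 < g
  out : O → Fin s

variable {k b s : ℕ} {O R Y : Type}

/-- The value at the gate `g` if the input variables have the values `x`. -/
def Circuit.value (C : Circuit k b s O R) (x : Sym2 (Fin k × Fin b) → R) (g : Fin s) : R :=
  match _h : C.gate g with
  | Sum.inl i => x i
  | Sum.inr (w, f) => f (w.attach.map fun p => (p.1.1, C.value x p.1.2))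
termination_by g
decreasing_by exact C.acyclic g w f _h p.1 p.2

open Classical in
/-- The values of the input variables for the graph `G`: `z true` at the edges, `z false` at the
other pairs. -/
noncomputable def input (z : Bool → R) (G : SimpleGraph (Fin k × Fin b))
    (e : Sym2 (Fin k × Fin b)) : R := z (decide (e ∈ G.edgeSet))

/-- The output number `o` for the graph `G`. -/
noncomputable def Circuit.output (C : Circuit k b s O R) (z : Bool → R)
    (G : SimpleGraph (Fin k × Fin b)) (o : O) : R := C.value (input z G) (C.out o)

/-- `γ i` permutes the vertices `(i, v)` of the class `i`. -/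
def inside (γ : Fin k → Equiv.Perm (Fin b)) (v : Fin k × Fin b) : Fin k × Fin b :=
  (v.1, γ v.1 v.2)

/-- The circuit is symmetric: the outputs are indexed by objects over a set `Y` which the
permutations of `Y` permute by `τ`, and for all even permutations `γ i` inside the classes there are
a permutation `α` of the gates and a permutation `π` of `Y` such that `α` maps gates reading a pair
of vertices to gates reading its image, the wires into a gate to the wires into the image of that
gate (with the same labels), preserves the gate functions and maps the output `o` to the output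
`τ π o`. -/
def Circuit.Symmetric (C : Circuit k b s O R) (τ : Equiv.Perm Y →* Equiv.Perm O) : Prop :=
  ∀ γ : Fin k → Equiv.Perm (Fin b), (∀ i, γ i ∈ alternatingGroup (Fin b)) →
    ∃ (α : Equiv.Perm (Fin s)) (π : Equiv.Perm Y),
      (∀ g, C.gate (α g) = Sum.map (Sym2.map (inside γ))
        (Prod.map (Multiset.map (Prod.map id α)) id) (C.gate g)) ∧
      ∀ o, α (C.out o) = C.out (τ π o)

/-- There are no edges inside the classes. -/
def Partite (G : SimpleGraph (Fin k × Fin b)) : Prop := ∀ u v, G.Adj u v → u.1 ≠ v.1

/-- There is a clique with `k` vertices. -/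
def HasClique (G : SimpleGraph (Fin k × Fin b)) : Prop := ∃ S : Finset (Fin k × Fin b), G.IsNClique k S

/-- Clauses with variables in `Y`: `(y, true)` is the variable `y`, `(y, false)` its negation. -/
abbrev Clause (Y : Type) : Type := Finset (Y × Bool)

/-- Permutations of the variables act on the clauses. -/
def rename : Equiv.Perm Y →* Equiv.Perm (Clause Y) where
  toFun π := (Equiv.prodCongr π (Equiv.refl Bool)).finsetCongr
  map_one' := by
    ext c : 1
    simp only [Equiv.finsetCongr_apply]
    ext l
    simp only [Finset.mem_map_equiv, Equiv.Perm.coe_one, id_eq]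
    exact Iff.rfl
  map_mul' π ρ := by
    ext c : 1
    simp only [Equiv.finsetCongr_apply, Equiv.Perm.mul_apply, Finset.map_map]
    congr 1

/-- Some assignment satisfies all clauses of `F`. -/
def Satisfiable (F : Set (Clause Y)) : Prop := ∃ a : Y → Bool, ∀ c ∈ F, ∃ l ∈ c, a l.1 = l.2

/-- All cliques have fewer than `63 k / 64` vertices. -/
def NoLargeClique (G : SimpleGraph (Fin k × Fin b)) : Prop :=
  ∀ S : Finset (Fin k × Fin b), G.IsClique (S : Set (Fin k × Fin b)) → 64 * S.card < 63 * k

/-- The formula for the graph `G`: it consists of the clauses `c` for which the output number `c`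
has the property `acc`. -/
def Circuit.formula (C : Circuit k b s (Clause Y) R) (z : Bool → R) (acc : R → Prop)
    (G : SimpleGraph (Fin k × Fin b)) : Set (Clause Y) := {c | acc (C.output z G c)}

/-- The circuit solves the gap problem for graphs without edges inside the classes: the formula is
satisfiable if the graph has a clique with `k` vertices, and it is unsatisfiable if all cliques
have fewer than `63 k / 64` vertices. -/
def Circuit.GapReduces (C : Circuit k b s (Clause Y) R) (z : Bool → R) (acc : R → Prop) : Prop :=
  ∀ G, Partite G → (HasClique G → Satisfiable (C.formula z acc G)) ∧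
    (NoLargeClique G → ¬ Satisfiable (C.formula z acc G))

/-- For the graphs without edges inside the classes the formula is satisfiable if and only if the
graph has a clique with `k` vertices. -/
def Circuit.Reduces (C : Circuit k b s (Clause Y) R) (z : Bool → R) (acc : R → Prop) : Prop :=
  ∀ G, Partite G → (Satisfiable (C.formula z acc G) ↔ HasClique G)

/-! ### proofs -/

open Pool.Agent.W893.SY (Net)

/-- the circuit with one output -/
def Circuit.net (C : Circuit k b s O R) (o : O) : Net (Sym2 (Fin k × Fin b)) R s where
  gate := C.gate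
  acyclic := C.acyclic
  out := C.out o

theorem value_net (C : Circuit k b s O R) (o : O) (x : Sym2 (Fin k × Fin b) → R) (g : Fin s) :
    C.value x g = (C.net o).val x g := by
  induction g using WellFoundedLT.induction with
  | ind g ih =>
    rw [Circuit.value, Net.val]
    split
    · rename_i i h
      split
      · rename_i i' h'
        have : C.gate g = Sum.inl i' := h'
        rw [h] at this
        rw [Sum.inl.inj this]
      · rename_i w f h'
        have : C.gate g = Sum.inr (w, f) := h'
        rw [h] at this
        exact absurd this (by simp)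
    · rename_i w f h
      split
      · rename_i i' h'
        have : C.gate g = Sum.inl i' := h'
        rw [h] at this
        exact absurd this (by simp)
      · rename_i w' f' h'
        have : C.gate g = Sum.inr (w', f') := h'
        rw [h] at this
        obtain ⟨rfl, rfl⟩ := Prod.mk.inj (Sum.inr.inj this)
        congr 1
        apply Multiset.map_congr rfl
        intro p _
        rw [ih p.1.2 (C.acyclic g w f h p.1 p.2)]

theorem output_net (C : Circuit k b s O R) (z : Bool → R) (G : SimpleGraph (Fin k × Fin b)) (o : O) :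
    C.output z G o = (C.net o).val (Pool.Agent.Q250.SYM.inp z G) (C.net o).out :=
  value_net C o _ _

/-- automorphisms of the gates -/
def Aut (C : Circuit k b s O R) (σ : Fin k × Fin b → Fin k × Fin b) (α : Equiv.Perm (Fin s)) : Prop :=
  ∀ g, C.gate (α g) = Sum.map (Sym2.map σ)
    (Prod.map (Multiset.map (Prod.map id α)) id) (C.gate g)

theorem Aut.one (C : Circuit k b s O R) : Aut C id 1 := by
  intro g
  rw [Sym2.map_id]
  rcases hc : C.gate g with i | ⟨w, f⟩
  · simp [hc]
  · simp [hc]

theorem Aut.mul {C : Circuit k b s O R} {σ τ : Fin k × Fin b → Fin k × Fin b}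
    {α β : Equiv.Perm (Fin s)} (h1 : Aut C σ α) (h2 : Aut C τ β) : Aut C (σ ∘ τ) (α * β) := by
  intro g
  rw [Equiv.Perm.mul_apply, h1, h2]
  rcases C.gate g with i | ⟨w, f⟩
  · simp only [Sum.map_inl, Sym2.map_map]
  · simp only [Sum.map_inr, Prod.map_apply, Multiset.map_map, id]
    rfl

theorem Aut.inv {C : Circuit k b s O R} {σ τ : Fin k × Fin b → Fin k × Fin b}
    {α : Equiv.Perm (Fin s)} (h1 : Aut C σ α) (h : τ ∘ σ = id) : Aut C τ α⁻¹ := by
  intro g
  have h2 := h1 (α⁻¹ g)
  rw [show α (α⁻¹ g) = g from Equiv.apply_symm_apply α g] at h2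
  rw [h2]
  rcases C.gate (α⁻¹ g) with i | ⟨w, f⟩
  · simp only [Sum.map_inl, Sym2.map_map, h]
    rw [Sym2.map_id]
    rfl
  · simp only [Sum.map_inr, Prod.map_apply, Multiset.map_map, id]
    congr 2
    have : (Prod.map id (⇑α⁻¹) ∘ Prod.map id ⇑α : ℕ × Fin s → ℕ × Fin s) = id := by
      funext p
      exact Prod.ext rfl (Equiv.symm_apply_apply α p.2)
    rw [this, Multiset.map_id]

/-- even permutations inside the classes -/
abbrev Ev (k b : ℕ) : Type := Fin k → alternatingGroup (Fin b)

/-- the map of the vertices -/
def vm (γ : Ev k b) : Fin k × Fin b → Fin k × Fin b := inside fun i => (γ i : Equiv.Perm (Fin b))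

/-- the elements over which there is an automorphism that fixes all outputs -/
def fixing (C : Circuit k b s O R) : Subgroup (Ev k b) where
  carrier := {γ | ∃ α : Equiv.Perm (Fin s), Aut C (vm γ) α ∧ ∀ o, α (C.out o) = C.out o}
  one_mem' := ⟨1, Aut.one C, fun _ => rfl⟩
  mul_mem' := by
    rintro γ δ ⟨α, h1, h2⟩ ⟨β, h3, h4⟩
    exact ⟨α * β, h1.mul h3, fun o => by rw [Equiv.Perm.mul_apply, h4, h2]⟩
  inv_mem' := by
    rintro γ ⟨α, h1, h2⟩
    refine ⟨α⁻¹, h1.inv ?_, fun o => by rw [Equiv.Perm.inv_eq_iff_eq, h2]⟩
    funext v
    show (v.1, ((γ v.1)⁻¹ : Equiv.Perm (Fin b)) ((γ v.1 : Equiv.Perm (Fin b)) v.2)) = v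
    exact Prod.ext rfl (Equiv.symm_apply_apply _ _)

theorem vm_inv (γ : Ev k b) : vm γ⁻¹ ∘ vm γ = id := by
  funext v
  show (v.1, ((γ v.1)⁻¹ : Equiv.Perm (Fin b)) ((γ v.1 : Equiv.Perm (Fin b)) v.2)) = v
  exact Prod.ext rfl (Equiv.symm_apply_apply _ _)

theorem fixing_top [Fintype Y] (hb : 5 ≤ b) (hY : Fintype.card Y < b) (C : Circuit k b s O R)
    (τ : Equiv.Perm Y →* Equiv.Perm O) (hC : C.Symmetric τ) : fixing C = ⊤ := by
  classical
  have hC' : ∀ γ : Ev k b, ∃ (α : Equiv.Perm (Fin s)) (π : Equiv.Perm Y), Aut C (vm γ) α ∧
      ∀ o, α (C.out o) = C.out (τ π o) := fun γ => hC _ fun i => (γ i).2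
  choose α π hα hπ using hC'
  -- the elements whose permutation of `Y` agree differ by an element of the subgroup
  have key : ∀ γ δ : Ev k b, π γ = π δ → γ⁻¹ * δ ∈ fixing C := by
    intro γ δ h
    refine ⟨(α γ)⁻¹ * α δ, ?_, fun o => ?_⟩
    · exact ((hα γ).inv (vm_inv γ)).mul (hα δ)
    · rw [Equiv.Perm.mul_apply, hπ δ, ← h, ← hπ γ]
      exact Equiv.symm_apply_apply _ _
  -- its index is at most `|Y|!`
  have hidx : (fixing C).index ≤ (Fintype.card Y).factorial := by
    have hinj : Function.Injective (fun q : Ev k b ⧸ fixing C => π q.out) := by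
      intro q q' h
      have h2 := key _ _ h
      rw [← QuotientGroup.eq] at h2
      simpa using h2
    have := Nat.card_le_card_of_injective _ hinj
    rw [Nat.card_perm, Nat.card_eq_fintype_card (α := Y)] at this
    exact this
  have hs : IsSimpleGroup (alternatingGroup (Fin b)) :=
    alternatingGroup.isSimpleGroup (by simpa using hb)
  have hnt : Nontrivial (Fin b) := Fin.nontrivial_iff_two_le.2 (by omega)
  have hnormal : (fixing C).Normal := by
    constructor
    rintro δ ⟨β, h1, h2⟩ γ
    refine ⟨α γ * β * (α γ)⁻¹, ?_, fun o => ?_⟩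
    · exact ((hα γ).mul h1).mul ((hα γ).inv (vm_inv γ))
    · have h3 : (α γ)⁻¹ (C.out o) = C.out ((τ (π γ))⁻¹ o) := by
        rw [Equiv.Perm.inv_eq_iff_eq, hπ γ]
        congr 1
        exact (Equiv.apply_symm_apply (τ (π γ)) o).symm
      rw [Equiv.Perm.mul_apply, Equiv.Perm.mul_apply, h3, h2, hπ γ]
      congr 1
      exact Equiv.apply_symm_apply (τ (π γ)) o
  have hall : ∀ (i : Fin k) (p : alternatingGroup (Fin b)),
      (Pi.mulSingle i p : Ev k b) ∈ fixing C := by
    intro i
    set K := (fixing C).comap (MonoidHom.mulSingle (fun _ : Fin k => alternatingGroup (Fin b)) i)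
      with hK
    have hKn : K.Normal := hnormal.comap _
    have hKi : K.index ≤ (fixing C).index := by
      rw [hK, Subgroup.index_comap, ← Subgroup.relIndex_top_right]
      apply Subgroup.relIndex_le_of_le_right le_top
      rw [Subgroup.relIndex_top_right]
      exact Subgroup.FiniteIndex.index_ne_zero
    have hcase : K = ⊥ ∨ K = ⊤ := Subgroup.Normal.eq_bot_or_eq_top hKn
    rcases hcase with h | h
    · exfalso
      have h1 := two_mul_nat_card_alternatingGroup (α := Fin b)
      rw [Nat.card_perm, Nat.card_eq_fintype_card (α := Fin b), Fintype.card_fin] at h1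
      rw [h, Subgroup.index_bot] at hKi
      have h3 : (Fintype.card Y).factorial ≤ (b - 1).factorial := Nat.factorial_le (by omega)
      have h4 : b.factorial = b * (b - 1).factorial := by
        obtain ⟨n, rfl⟩ : ∃ n, b = n + 1 := ⟨b - 1, by omega⟩
        rw [Nat.factorial_succ]
        simp
      have h5 : 0 < (b - 1).factorial := Nat.factorial_pos _
      nlinarith
    · intro p
      have : p ∈ K := by rw [h]; trivial
      exact this
  rw [eq_top_iff]
  intro γ _
  exact Subgroup.pi_mem_of_mulSingle_mem γ fun i => hall i _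

theorem sym_net [Fintype Y] (hb : 5 ≤ b) (hY : Fintype.card Y < b) (C : Circuit k b s O R)
    (τ : Equiv.Perm Y →* Equiv.Perm O) (hC : C.Symmetric τ) (o : O) (γ : Ev k b) :
    ∃ α, (C.net o).IsAut (Pool.Agent.Q250.SYM.actB γ) α := by
  have : γ ∈ fixing C := by rw [fixing_top hb hY C τ hC]; trivial
  obtain ⟨α, h1, h2⟩ := this
  exact ⟨α, h1, h2 o⟩

/-! ### the natural reduction with one variable for every vertex -/

section upper

variable (k b)

/-- the vertices -/
abbrev V : Type := Fin k × Fin b

/-- the number of pairs of vertices -/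
def E : ℕ := Fintype.card (Sym2 (V k b))

/-- numbering of the pairs -/
noncomputable def num : Sym2 (V k b) ≃ Fin (E k b) := Fintype.equivFin _

/-- the gate of the input variable number `i` -/
def gi (i : Fin (E k b)) : Fin (E k b + (E k b + 2)) := Fin.castAdd _ i

/-- its negation -/
def gn (i : Fin (E k b)) : Fin (E k b + (E k b + 2)) := Fin.natAdd _ (Fin.castAdd 2 i)

/-- the constants -/
def gc (t : Fin 2) : Fin (E k b + (E k b + 2)) := Fin.natAdd _ (Fin.natAdd _ t)

/-- the negation as a gate function -/
def notFn (M : Multiset (ℕ × Bool)) : Bool := decide ((0, false) ∈ M)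

/-- the gates -/
noncomputable def natGate : Fin (E k b + (E k b + 2)) →
    Sym2 (V k b) ⊕ (Multiset (ℕ × Fin (E k b + (E k b + 2))) × (Multiset (ℕ × Bool) → Bool)) :=
  Fin.addCases (fun i => Sum.inl ((num k b).symm i))
    (Fin.addCases (fun i => Sum.inr ({(0, gi k b i)}, notFn))
      (fun t => Sum.inr (0, fun _ => decide (t = 1))))

theorem natGate_gi (i : Fin (E k b)) : natGate k b (gi k b i) = Sum.inl ((num k b).symm i) := by
  unfold natGate gi
  rw [Fin.addCases_left]

theorem natGate_gn (i : Fin (E k b)) :
    natGate k b (gn k b i) = Sum.inr ({(0, gi k b i)}, notFn) := by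
  unfold natGate gn
  rw [Fin.addCases_right, Fin.addCases_left]

theorem natGate_gc (t : Fin 2) :
    natGate k b (gc k b t) = Sum.inr (0, fun _ => decide (t = 1)) := by
  unfold natGate gc
  rw [Fin.addCases_right, Fin.addCases_right]

theorem cases_gate {p : Fin (E k b + (E k b + 2)) → Prop} (h1 : ∀ i, p (gi k b i))
    (h2 : ∀ i, p (gn k b i)) (h3 : ∀ t, p (gc k b t)) : ∀ g, p g := by
  intro g
  refine Fin.addCases (fun i => h1 i) (fun j => ?_) g
  exact Fin.addCases (fun i => h2 i) (fun t => h3 t) j

open Classical in
/-- some vertex of the class `i` is chosen -/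
noncomputable def classClause (i : Fin k) : Clause (V k b) :=
  univ.filter fun l => l.1.1 = i ∧ l.2 = true

open Classical in
/-- not both vertices of the pair are chosen -/
noncomputable def pairClause (e : Sym2 (V k b)) : Clause (V k b) :=
  univ.filter fun l => l.1 ∈ e ∧ l.2 = false

/-- the vertices of the pair are in different classes -/
def cross (e : Sym2 (V k b)) : Prop := ¬ (e.map Prod.fst).IsDiag

theorem pairClause_inj {e e' : Sym2 (V k b)} (h : pairClause k b e = pairClause k b e') :
    e = e' := by
  apply Sym2.ext
  intro v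
  have := Finset.ext_iff.1 h (v, false)
  simpa [pairClause] using this

open Classical in
/-- the outputs -/
noncomputable def natOut (c : Clause (V k b)) : Fin (E k b + (E k b + 2)) :=
  if ∃ i, c = classClause k b i then gc k b 1
  else if h : ∃ e, cross k b e ∧ c = pairClause k b e then gn k b (num k b h.choose)
  else gc k b 0

/-- the natural reduction -/
noncomputable def natural : Circuit k b (E k b + (E k b + 2)) (Clause (V k b)) Bool where
  gate := natGate k b
  acyclic := by
    refine cases_gate k b ?_ ?_ ?_
    · intro i w f h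
      rw [natGate_gi] at h
      exact absurd h (by simp)
    · intro i w f h p hp
      rw [natGate_gn] at h
      obtain ⟨rfl, rfl⟩ := Prod.mk.inj (Sum.inr.inj h)
      rw [Multiset.mem_singleton] at hp
      subst hp
      show (gi k b i : Fin _) < gn k b i
      unfold gi gn
      rw [Fin.lt_def]
      simp only [Fin.val_castAdd, Fin.val_natAdd]
      omega
    · intro t w f h p hp
      rw [natGate_gc] at h
      obtain ⟨rfl, rfl⟩ := Prod.mk.inj (Sum.inr.inj h)
      exact absurd hp (by simp)
  out := natOut k b

variable {k b}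

/-- a permutation inside the classes as a permutation of the vertices -/
def ins (γ : Fin k → Equiv.Perm (Fin b)) : Equiv.Perm (V k b) where
  toFun := inside γ
  invFun := inside fun i => (γ i).symm
  left_inv v := by
    show (v.1, (γ v.1).symm ((γ v.1) v.2)) = v
    rw [Equiv.symm_apply_apply]
  right_inv v := by
    show (v.1, (γ v.1) ((γ v.1).symm v.2)) = v
    rw [Equiv.apply_symm_apply]

/-- the permutation of the pairs -/
def insS (π : Equiv.Perm (V k b)) : Equiv.Perm (Sym2 (V k b)) where
  toFun := Sym2.map π
  invFun := Sym2.map π.symm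
  left_inv e := by
    rw [Sym2.map_map, Equiv.symm_comp_self, Sym2.map_id]
    rfl
  right_inv e := by
    rw [Sym2.map_map, Equiv.self_comp_symm, Sym2.map_id]
    rfl

/-- the permutation of the numbers of the pairs -/
noncomputable def insE (π : Equiv.Perm (V k b)) : Equiv.Perm (Fin (E k b)) :=
  ((num k b).symm.trans (insS π)).trans (num k b)

/-- the permutation of the gates -/
noncomputable def insG (π : Equiv.Perm (V k b)) : Equiv.Perm (Fin (E k b + (E k b + 2))) :=
  finSumFinEquiv.permCongr (Equiv.sumCongr (insE π)
    (finSumFinEquiv.permCongr (Equiv.sumCongr (insE π) (Equiv.refl (Fin 2)))))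

theorem insG_gi (π : Equiv.Perm (V k b)) (i : Fin (E k b)) :
    insG π (gi k b i) = gi k b (insE π i) := by
  unfold insG gi
  simp [Equiv.permCongr_apply]

theorem insG_gn (π : Equiv.Perm (V k b)) (i : Fin (E k b)) :
    insG π (gn k b i) = gn k b (insE π i) := by
  unfold insG gn
  simp [Equiv.permCongr_apply]

theorem insG_gc (π : Equiv.Perm (V k b)) (t : Fin 2) :
    insG π (gc k b t) = gc k b t := by
  unfold insG gc
  simp [Equiv.permCongr_apply]

theorem mem_rename {π : Equiv.Perm Y} {c : Clause Y} {l : Y × Bool} :
    l ∈ rename π c ↔ (π.symm l.1, l.2) ∈ c := by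
  show l ∈ c.map (Equiv.prodCongr π (Equiv.refl Bool)).toEmbedding ↔ _
  rw [Finset.mem_map_equiv]
  exact Iff.rfl

theorem rename_class (γ : Fin k → Equiv.Perm (Fin b)) (i : Fin k) :
    rename (ins γ) (classClause k b i) = classClause k b i := by
  ext l
  rw [mem_rename]
  simp only [classClause, mem_filter, mem_univ, true_and]
  exact Iff.rfl

theorem rename_pair (π : Equiv.Perm (V k b)) (e : Sym2 (V k b)) :
    rename π (pairClause k b e) = pairClause k b (insS π e) := by
  ext l
  rw [mem_rename]
  simp only [pairClause, mem_filter, mem_univ, true_and]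
  apply and_congr_left
  intro _
  show π.symm l.1 ∈ e ↔ l.1 ∈ Sym2.map π e
  rw [Sym2.mem_map]
  constructor
  · intro h
    exact ⟨_, h, Equiv.apply_symm_apply _ _⟩
  · rintro ⟨a, ha, h⟩
    rw [← h, Equiv.symm_apply_apply]
    exact ha

theorem cross_ins (γ : Fin k → Equiv.Perm (Fin b)) (e : Sym2 (V k b)) :
    cross k b (insS (ins γ) e) ↔ cross k b e := by
  unfold cross
  have : Sym2.map Prod.fst (insS (ins γ) e) = Sym2.map Prod.fst e := by
    show Sym2.map Prod.fst (Sym2.map (ins γ) e) = _
    rw [Sym2.map_map]
    rfl
  rw [this]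

theorem natOut_class (i : Fin k) : natOut k b (classClause k b i) = gc k b 1 := by
  unfold natOut
  rw [if_pos ⟨i, rfl⟩]

theorem class_ne_pair (hb : 0 < b) (i : Fin k) (e : Sym2 (V k b)) :
    pairClause k b e ≠ classClause k b i := by
  intro h
  have := Finset.ext_iff.1 h ((i, ⟨0, hb⟩), true)
  simp [pairClause, classClause] at this

theorem natOut_pair (hb : 0 < b) {e : Sym2 (V k b)} (he : cross k b e) :
    natOut k b (pairClause k b e) = gn k b (num k b e) := by
  classical
  unfold natOut
  rw [if_neg (by rintro ⟨i, hi⟩; exact class_ne_pair hb i e hi)]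
  have h : ∃ e', cross k b e' ∧ pairClause k b e = pairClause k b e' := ⟨e, he, rfl⟩
  rw [dif_pos h]
  congr 2
  exact (pairClause_inj k b h.choose_spec.2).symm

theorem natOut_other {c : Clause (V k b)} (h1 : ¬ ∃ i, c = classClause k b i)
    (h2 : ¬ ∃ e, cross k b e ∧ c = pairClause k b e) : natOut k b c = gc k b 0 := by
  unfold natOut
  rw [if_neg h1, dif_neg h2]

theorem natural_symmetric (hb : 0 < b) : (natural k b).Symmetric (rename (Y := V k b)) := by
  intro γ _
  refine ⟨insG (ins γ), ins γ, ?_, ?_⟩
  · show ∀ g, natGate k b (insG (ins γ) g) = Sum.map (Sym2.map (inside γ))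
      (Prod.map (Multiset.map (Prod.map id (insG (ins γ)))) id) (natGate k b g)
    refine cases_gate k b ?_ ?_ ?_
    · intro i
      rw [insG_gi, natGate_gi, natGate_gi, Sum.map_inl]
      congr 1
      unfold insE
      simp only [Equiv.trans_apply, Equiv.symm_apply_apply]
      rfl
    · intro i
      rw [insG_gn, natGate_gn, natGate_gn, Sum.map_inr, Prod.map_apply, Multiset.map_singleton,
        Prod.map_apply, insG_gi]
      rfl
    · intro t
      rw [insG_gc, natGate_gc, Sum.map_inr, Prod.map_apply, Multiset.map_zero]
      rfl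
  · intro c
    show insG (ins γ) (natOut k b c) = natOut k b (rename (ins γ) c)
    have hinj : ∀ c', rename (ins γ) c = rename (ins γ) c' → c = c' :=
      fun c' h => (rename (ins γ)).injective h
    by_cases h1 : ∃ i, c = classClause k b i
    · obtain ⟨i, rfl⟩ := h1
      rw [rename_class, natOut_class, insG_gc]
    · by_cases h2 : ∃ e, cross k b e ∧ c = pairClause k b e
      · obtain ⟨e, he, rfl⟩ := h2
        rw [rename_pair, natOut_pair hb he, natOut_pair hb ((cross_ins γ e).2 he), insG_gn]
        congr 1
        unfold insE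
        simp only [Equiv.trans_apply, Equiv.symm_apply_apply]
      · rw [natOut_other h1 h2, insG_gc, natOut_other]
        · rintro ⟨i, hi⟩
          rw [← rename_class γ i] at hi
          exact h1 ⟨i, hinj _ hi⟩
        · rintro ⟨e, he, hi⟩
          apply h2
          refine ⟨(insS (ins γ)).symm e, ?_, ?_⟩
          · rw [← cross_ins γ, Equiv.apply_symm_apply]
            exact he
          · apply hinj
            rw [rename_pair, Equiv.apply_symm_apply, hi]

theorem value_gc (x : Sym2 (V k b) → Bool) (t : Fin 2) :
    (natural k b).value x (gc k b t) = decide (t = 1) := by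
  have c0 : Clause (V k b) := ∅
  rw [value_net _ c0]
  exact ((natural k b).net c0).val_inr x (natGate_gc k b t)

theorem value_gi (x : Sym2 (V k b) → Bool) (i : Fin (E k b)) :
    (natural k b).value x (gi k b i) = x ((num k b).symm i) := by
  have c0 : Clause (V k b) := ∅
  rw [value_net _ c0]
  exact ((natural k b).net c0).val_inl x (natGate_gi k b i)

theorem value_gn (x : Sym2 (V k b) → Bool) (i : Fin (E k b)) :
    (natural k b).value x (gn k b i) = !x ((num k b).symm i) := by
  have c0 : Clause (V k b) := ∅
  rw [value_net _ c0, ((natural k b).net c0).val_inr x (natGate_gn k b i)]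
  rw [Multiset.map_singleton]
  have : ((natural k b).net c0).val x (gi k b i) = x ((num k b).symm i) := by
    rw [← value_net]
    exact value_gi x i
  simp only [this]
  unfold notFn
  cases x ((num k b).symm i) <;> simp

theorem natural_reduces (hb : 0 < b) : (natural k b).Reduces (fun t => t) (fun t => t = true) := by
  classical
  intro G hG
  have out_class : ∀ i, (natural k b).output (fun t => t) G (classClause k b i) = true := by
    intro i
    show (natural k b).value _ (natOut k b _) = true
    rw [natOut_class, value_gc]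
    rfl
  have out_pair : ∀ e, cross k b e →
      ((natural k b).output (fun t => t) G (pairClause k b e) = true ↔ e ∉ G.edgeSet) := by
    intro e he
    show (natural k b).value _ (natOut k b _) = true ↔ _
    rw [natOut_pair hb he, value_gn, Equiv.symm_apply_apply]
    unfold input
    simp
  have out_other : ∀ c, (¬ ∃ i, c = classClause k b i) →
      (¬ ∃ e, cross k b e ∧ c = pairClause k b e) →
      (natural k b).output (fun t => t) G c = false := by
    intro c h1 h2
    show (natural k b).value _ (natOut k b _) = false
    rw [natOut_other h1 h2, value_gc]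
    rfl
  constructor
  · rintro ⟨a, ha⟩
    have h1 : ∀ i : Fin k, ∃ v : Fin b, a (i, v) = true := by
      intro i
      obtain ⟨⟨⟨i', v⟩, t⟩, hl, hal⟩ := ha (classClause k b i) (out_class i)
      simp only [classClause, mem_filter, mem_univ, true_and] at hl
      obtain ⟨rfl, rfl⟩ := hl
      exact ⟨v, hal⟩
    choose v hv using h1
    refine ⟨univ.image fun i => (i, v i), ?_⟩
    rw [SimpleGraph.isNClique_iff]
    constructor
    · rw [SimpleGraph.isClique_iff]
      intro x hx y hy hxy
      simp only [coe_image, coe_univ, Set.image_univ, Set.mem_range] at hx hy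
      obtain ⟨i, rfl⟩ := hx
      obtain ⟨j, rfl⟩ := hy
      have hij : i ≠ j := fun h => hxy (by rw [h])
      by_contra hadj
      obtain ⟨⟨w, t⟩, hl, hal⟩ := ha (pairClause k b s((i, v i), (j, v j)))
        ((out_pair _ (by
          unfold cross
          rw [Sym2.map_mk, Sym2.mk_isDiag_iff]
          exact hij)).2 (by rw [SimpleGraph.mem_edgeSet]; exact hadj))
      simp only [pairClause, mem_filter, mem_univ, true_and, Sym2.mem_iff] at hl
      obtain ⟨hw, rfl⟩ := hl
      rcases hw with rfl | rfl
      · rw [hv i] at hal
        exact absurd hal (by simp)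
      · rw [hv j] at hal
        exact absurd hal (by simp)
    · rw [card_image_of_injective, card_univ, Fintype.card_fin]
      intro i j h
      exact (Prod.mk.inj h).1
  · rintro ⟨S, hS⟩
    rw [SimpleGraph.isNClique_iff, SimpleGraph.isClique_iff] at hS
    obtain ⟨hcl, hcard⟩ := hS
    have hinj : Set.InjOn Prod.fst (S : Set (V k b)) := by
      intro x hx y hy hxy
      by_contra hne
      exact hG _ _ (hcl hx hy hne) hxy
    have himg : S.image Prod.fst = univ := by
      apply eq_univ_of_card
      rw [card_image_of_injOn hinj, hcard, Fintype.card_fin]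
    refine ⟨fun v => decide (v ∈ S), fun c hc => ?_⟩
    have hc' : (natural k b).output (fun t => t) G c = true := hc
    by_cases h1 : ∃ i, c = classClause k b i
    · obtain ⟨i, rfl⟩ := h1
      have : i ∈ S.image Prod.fst := by rw [himg]; exact mem_univ _
      rw [mem_image] at this
      obtain ⟨x, hx, hxi⟩ := this
      exact ⟨(x, true), by simp [classClause, hxi], by simp [hx]⟩
    · by_cases h2 : ∃ e, cross k b e ∧ c = pairClause k b e
      · obtain ⟨e, he, rfl⟩ := h2
        have h3 := (out_pair e he).1 hc'
        induction e using Sym2.ind with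
        | h x y =>
          rw [SimpleGraph.mem_edgeSet] at h3
          by_cases hx : x ∈ S
          · by_cases hy : y ∈ S
            · exfalso
              apply h3
              apply hcl hx hy
              rintro rfl
              apply he
              rw [Sym2.map_mk, Sym2.mk_isDiag_iff]
            · exact ⟨(y, false), by simp [pairClause], by simp [hy]⟩
          · exact ⟨(x, false), by simp [pairClause], by simp [hx]⟩
      · rw [out_other c h1 h2] at hc'
        exact absurd hc' (by simp)

theorem card_E (k b : ℕ) : E k b + (E k b + 2) = k * b * (k * b + 1) + 2 := by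
  unfold E
  rw [Sym2.card, Fintype.card_prod, Fintype.card_fin, Fintype.card_fin, Nat.choose_two_right]
  have h := Nat.even_mul_pred_self (k * b + 1)
  have h2 : 2 * ((k * b + 1) * (k * b + 1 - 1) / 2) = (k * b + 1) * (k * b + 1 - 1) :=
    Nat.two_mul_div_two_of_even h
  have h3 : (k * b + 1) * (k * b + 1 - 1) = k * b * (k * b + 1) := by
    rw [Nat.add_sub_cancel, Nat.mul_comm]
  omega

end upper

/-- the lower bounds -/
theorem lower : ∃ K : ℕ, 0 < K ∧
    (∀ k b κ : ℕ, 5 ≤ b → K * (κ + 1) < k →
      ∃ G H : SimpleGraph (Fin k × Fin b), Partite G ∧ Partite H ∧ HasClique G ∧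
        NoLargeClique H ∧
        ∀ (s : ℕ) (Y O R : Type) [Fintype Y] (τ : Equiv.Perm Y →* Equiv.Perm O)
          (C : Circuit k b s O R) (z : Bool → R), Fintype.card Y < b → s < b ^ (κ + 1) →
            C.Symmetric τ → ∀ o, C.output z G o = C.output z H o) ∧
    ∀ (f : ℕ → ℕ) (c k b : ℕ), 5 ≤ b → f k * k ^ c < b → K * (c + 1) < k →
      ∀ (s : ℕ) (Y R : Type) [Fintype Y] (C : Circuit k b s (Clause Y) R) (z : Bool → R)
        (acc : R → Prop), Fintype.card Y < b → s ≤ f k * (k * b) ^ c → C.Symmetric rename →
          ¬ C.GapReduces z acc := by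
  obtain ⟨K, hK, hpair⟩ := Pool.Agent.Q250.SYM.clique_gap
  have h1 : ∀ k b κ : ℕ, 5 ≤ b → K * (κ + 1) < k →
      ∃ G H : SimpleGraph (Fin k × Fin b), Partite G ∧ Partite H ∧ HasClique G ∧
        NoLargeClique H ∧
        ∀ (s : ℕ) (Y O R : Type) [Fintype Y] (τ : Equiv.Perm Y →* Equiv.Perm O)
          (C : Circuit k b s O R) (z : Bool → R), Fintype.card Y < b → s < b ^ (κ + 1) →
            C.Symmetric τ → ∀ o, C.output z G o = C.output z H o := by
    intro k b κ hb hk
    obtain ⟨G, H, hG, hH, hcl, hncl, hGH⟩ := hpair k b κ hb hk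
    refine ⟨G, H, hG, hH, hcl, hncl, ?_⟩
    intro s Y O R _ τ C z hY hs hC o
    rw [output_net, output_net]
    exact hGH R z s (C.net o) hs (sym_net hb hY C τ hC o)
  refine ⟨K, hK, h1, ?_⟩
  intro f c k b hb hf hk s Y R _ C z acc hY hs hC hred
  obtain ⟨G, H, hG, hH, hcl, hncl, hGH⟩ := h1 k b c hb hk
  have hs' : s < b ^ (c + 1) := by
    refine hs.trans_lt ?_
    rw [mul_pow, ← mul_assoc, pow_succ']
    exact Nat.mul_lt_mul_of_pos_right hf (by positivity)
  have := hGH s Y (Clause Y) R rename C z hY hs' hC
  have e : C.formula z acc G = C.formula z acc H := by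
    unfold Circuit.formula
    ext c
    simp only [Set.mem_ofPred_eq, this]
  have h2 := (hred G hG).1 hcl
  rw [e] at h2
  exact (hred H hH).2 hncl h2

/-- logarithms are small -/
theorem log_small (D F c : ℕ) : ∃ B : ℕ, ∀ b : ℕ, B ≤ b →
    D * (Nat.log 2 (F * b ^ c) + 1) < b := by
  have hsq : ∀ n : ℕ, 5 ≤ n → n ^ 2 < 2 ^ n := by
    intro n hn
    induction n, hn using Nat.le_induction with
    | base => norm_num
    | succ n hn ih =>
      have : 2 ^ (n + 1) = 2 * 2 ^ n := by rw [pow_succ]; ring
      nlinarith
  set A := D * (F + c + 1) with hA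
  refine ⟨2 ^ (2 * A + 5), fun b hb => ?_⟩
  have hb0 : b ≠ 0 := by
    have : 0 < 2 ^ (2 * A + 5) := by positivity
    omega
  set L := Nat.log 2 b with hL
  have h1 : 2 * A + 5 ≤ L := (Nat.le_log_iff_pow_le (by norm_num) hb0).2 hb
  have h2 : 2 ^ L ≤ b := Nat.pow_log_le_self 2 hb0
  have h3 : b < 2 ^ (L + 1) := Nat.lt_pow_succ_log_self (by norm_num) b
  have h4 : Nat.log 2 (F * b ^ c) ≤ F + (L + 1) * c := by
    have h5 : F * b ^ c ≤ 2 ^ (F + (L + 1) * c) := by
      rw [pow_add, pow_mul]
      exact Nat.mul_le_mul (Nat.lt_two_pow_self).le (Nat.pow_le_pow_left h3.le c)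
    calc Nat.log 2 (F * b ^ c) ≤ Nat.log 2 (2 ^ (F + (L + 1) * c)) := Nat.log_mono_right h5
      _ = _ := Nat.log_pow (by norm_num) _
  calc D * (Nat.log 2 (F * b ^ c) + 1) ≤ D * (F + (L + 1) * c + 1) := by gcongr
    _ ≤ A * (L + 1) := by
      rw [hA, mul_assoc]
      apply Nat.mul_le_mul_left
      nlinarith
    _ < L ^ 2 := by nlinarith
    _ < 2 ^ L := hsq L (by omega)
    _ ≤ b := h2

/-- **Symmetric reductions from clique.** There is an absolute constant `K > 0` such that:

(1) for all `b ≥ 5`, `κ` and `k > K (κ + 1)` there are graphs `G` and `H` with `k` classes of `b`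
vertices and no edges inside the classes, `G` with a `k`-clique and `H` without a clique with
`63 k / 64` vertices, such that all outputs of all symmetric circuits with fewer than
`b ^ (κ + 1)` gates, whose outputs are indexed by objects over a set `Y` with fewer than `b`
elements, are the same for `G` and `H`;

(2) for all `f`, `g`, `c`, all `k > K (c + 1)` and all large `b` no symmetric circuit with at most
`f k * (k * b) ^ c` gates solves the gap problem by formulas with fewer than `b` variables, or with
at most `g k * (log (f k * (k * b) ^ c) + 1)` variables (as `M[1]` asks);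

(3) with one variable for every vertex, `k * b` variables, there is a symmetric reduction with
`k * b * (k * b + 1) + 2` gates. -/
theorem result : ∃ K : ℕ, 0 < K ∧
    (∀ k b κ : ℕ, 5 ≤ b → K * (κ + 1) < k →
      ∃ G H : SimpleGraph (Fin k × Fin b), Partite G ∧ Partite H ∧ HasClique G ∧
        NoLargeClique H ∧
        ∀ (s : ℕ) (Y O R : Type) [Fintype Y] (τ : Equiv.Perm Y →* Equiv.Perm O)
          (C : Circuit k b s O R) (z : Bool → R), Fintype.card Y < b → s < b ^ (κ + 1) →
            C.Symmetric τ → ∀ o, C.output z G o = C.output z H o) ∧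
    (∀ (f g : ℕ → ℕ) (c k : ℕ), K * (c + 1) < k → ∃ B : ℕ, ∀ b : ℕ, B ≤ b →
      ∀ (s : ℕ) (Y R : Type) [Fintype Y] (C : Circuit k b s (Clause Y) R) (z : Bool → R)
        (acc : R → Prop),
        (Fintype.card Y < b ∨
          Fintype.card Y ≤ g k * (Nat.log 2 (f k * (k * b) ^ c) + 1)) →
        s ≤ f k * (k * b) ^ c → C.Symmetric rename → ¬ C.GapReduces z acc) ∧
    ∀ k b : ℕ, 0 < b → ∃ (s : ℕ) (C : Circuit k b s (Clause (Fin k × Fin b)) Bool),
      s = k * b * (k * b + 1) + 2 ∧ C.Symmetric rename ∧
        C.Reduces (fun t => t) (fun t => t = true) := by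
  obtain ⟨K, hK, h1, h2⟩ := lower
  refine ⟨K, hK, h1, ?_, fun k b hb =>
    ⟨_, natural k b, card_E k b, natural_symmetric hb, natural_reduces hb⟩⟩
  intro f g c k hk
  obtain ⟨B, hB⟩ := log_small (g k) (f k * k ^ c) c
  refine ⟨B + 5 + (f k * k ^ c + 1), ?_⟩
  intro b hb s Y R _ C z acc hY hs hC
  have hY' : Fintype.card Y < b := by
    rcases hY with h | h
    · exact h
    · refine h.trans_lt ?_
      have := hB b (by omega)
      rw [mul_pow, ← mul_assoc]
      exact this
  exact h2 f c k b (by omega) (by omega) hk s Y R C z acc hY' hs hC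

end Pool.Agent.Results.MP_ddf912_lc.SymmetricMaps
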