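import Pool.Agent.Q226.MWF.Main

/-!
# `p-CLIQUE` is not reducible to `p-log-SAT(Γ_{1,d})` by circuits whose negations are unreliable

`M[1]` is the closure under fpt-reductions of the problems `p-log-SAT(Γ_{1,d})`: satisfiability of
formulas of size `m` with at most `d` literals per clause, parameterized by `⌈v / log m⌉`, where `v`
is the number of variables. An fpt-reduction of `p-CLIQUE` to this problem maps a graph with `n`
vertices and a number `k` to a formula with `v ≤ g k * log m` variables, where `m ≤ f k * n ^ c`.

We consider reductions that are computed by circuits. The graph is given by bits: for each pair `e`
of vertices and each tag `j < T`, the bit of the position `(e, j)` tells whether there is an edge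
`e` with the tag `j`. Only inputs without parallel edges are considered; the tags have no meaning.
The inputs of the circuit are these bits and their negations; it has AND and OR gates of fan-in two
and few arbitrary further gates, and it computes for each possible clause a bit that says whether the
clause belongs to the formula. The reduction may also be a truth-table reduction: it asks `q` such
questions in parallel, and it evaluates the `q` answers by an arbitrary function. A randomised
reduction is a finite family of such reductions, one of which is chosen uniformly at random. All
circuits of AND, OR and NOT gates can be brought into this form by doubling their size.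

Faults: each negated input (the information that there is no such edge at a position) is stuck at
`0`, independently with probability `1 / D`. The other inputs and all gates are reliable. The
reduction has to be right with probability `2 / 3` over its random choice and the faults.

Theorem. Let `f`, `g`, `s` be arbitrary functions with `s k ≥ k`, let `c` and `d` be numbers and
`0 ≤ γ < 2`. For all large `k` and all large `n`, every fault rate `1 / D`, however small, and
`T ≥ 800 D n ^ 2`, no such reductions with at most `f k * n ^ c` gates and with
`(q + 1) * ∏ (w + 1) ≤ n ^ γ`, where `w` runs through the numbers of wires of the further gates (for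
example `γ log₂ n` reliable NOT gates), are right on all graphs which have a clique of `s k` vertices
or no clique of `k` vertices.

* Without faults this would prove `W[1] ≠ M[1]` (and more, so it would be a circuit lower bound).
* For `D = 1` all negated inputs are `0`. This is the case without negated inputs, the starting
  result `FewNegations`, which is used in the proof.

The proof: every edge of a graph gets a random tag. Suppose moreover that for each pair which is not
an edge a random one of its positions is made faulty. The negated inputs are then independent of the
graph. The second moment method shows that this changes the joint distribution of all inputs by at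
most `1 / 20` in total variation, for any graph.
-/

set_option autoImplicit false

namespace Pool.Agent.Results.MP_ddf912_lc.UnreliableNegations

open Finset Filter Pool.Agent.H679R2.M1 Pool.Agent.Q226.FL2 Pool.Agent.Q226.MWF

/-- Let `f`, `g`, `s` be functions with `k ≤ s k`, `c`, `d` numbers, `0 ≤ γ < 2`, `k` large, `n`
large, `D ≥ 1` and `T ≥ 800 D n ^ 2`. For every finite family of truth-table reductions `R r` to
satisfiability of formulas in `Γ_{1,d}` over at most `g k * (log₂ (f k * n ^ c) + 1)` variables,
computed by circuits on the bits of the positions and their negations with
`(q + 1) * ∏ (w + 1) ≤ n ^ γ` and at most `f k * n ^ c` gates and wires into further gates, there is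
an input without parallel edges, whose graph has a clique with `s k` vertices or no clique with `k`
vertices, for which the answer is right with probability less than `2 / 3` over `r` and the faults,
where each negated input is stuck at `0` with probability `1 / D`. -/
theorem result (f g s : ℕ → ℕ) (hs : ∀ k, k ≤ s k) (c d : ℕ) (γ : ℝ) (hγ0 : 0 ≤ γ)
    (hγ : γ < 2) :
    ∀ᶠ k : ℕ in atTop, ∀ᶠ n : ℕ in atTop, ∀ D T : ℕ, 1 ≤ D → 800 * D * n ^ 2 ≤ T →
      ∀ (Ω : Type) [Fintype Ω] [Nonempty Ω] (v q N : Ω → ℕ)
        (R : ∀ r, LiteralReduction n T (v r) d (q r) (N r)),
        (∀ r, v r ≤ g k * (Nat.log 2 (f k * n ^ c) + 1)) →
        (∀ r, (((q r + 1) * ((R r).C.fanins.map (· + 1)).prod : ℕ) : ℝ) ≤ (n : ℝ) ^ γ) →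
        (∀ r, (R r).C.size + (R r).C.fanins.sum ≤ f k * n ^ c) →
        ∃ x : Sym2 (Fin n) × Fin T → Bool, NoParallelEdges x ∧ Promise (s k) k (edges x) ∧
          faultyProbability (fun r y => Right (s k) k (edges x) ((R r).answer y)) D x < 2 / 3 :=
  main f g s hs c d γ hγ0 hγ

end Pool.Agent.Results.MP_ddf912_lc.UnreliableNegations
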